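import Pool.Agent.Lib.MP_b9b22b_co.Few.Vectors
import Pool.Agent.Lib.MP_b9b22b_co.Spectral

/-!
The number of nonpositive eigenvalues.
-/

set_option autoImplicit false

open Finset Matrix

namespace Pool.Agent.Lib.MP_b9b22b_co.Few

variable {V : Type*} [Fintype V] [DecidableEq V]

/-- the number of nonpositive eigenvalues of a real symmetric matrix -/
noncomputable def nu {A : Matrix V V ℝ} (hA : A.IsHermitian) : ℕ :=
  (Finset.univ.filter fun j => hA.eigenvalues j ≤ 0).card

theorem nu_eq {A : Matrix V V ℝ} (hA : A.IsHermitian) :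
    nu hA = (Finset.univ.filter fun i : Fin (Fintype.card V) => hA.eigenvalues₀ i ≤ 0).card := by
  unfold nu
  refine Finset.card_bij'
    (fun j _ => (Fintype.equivOfCardEq (Fintype.card_fin (Fintype.card V))).symm j)
    (fun i _ => (Fintype.equivOfCardEq (Fintype.card_fin (Fintype.card V))) i) ?_ ?_ ?_ ?_
  · intro j hj
    rw [Finset.mem_filter] at hj ⊢
    exact ⟨Finset.mem_univ _, hj.2⟩
  · intro i hi
    rw [Finset.mem_filter] at hi ⊢
    refine ⟨Finset.mem_univ _, ?_⟩
    unfold Matrix.IsHermitian.eigenvalues
    rw [Equiv.symm_apply_apply]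
    exact hi.2
  · intro j _
    simp
  · intro i _
    simp

theorem card_ge {n : ℕ} (c : ℕ) (hc : c ≤ n) :
    (Finset.univ.filter fun i : Fin n => n - c ≤ (i : ℕ)).card = c := by
  rcases Nat.eq_zero_or_pos c with h0 | h0
  · subst h0
    rw [Finset.card_eq_zero, Finset.filter_eq_empty_iff]
    intro i _
    have := i.2
    omega
  · have hn : n - c < n := by omega
    have h1 : (Finset.univ.filter fun i : Fin n => n - c ≤ (i : ℕ)) =
        Finset.Ici (⟨n - c, hn⟩ : Fin n) := by
      ext i
      rw [Finset.mem_filter, Finset.mem_Ici, Fin.le_def]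
      simp
    rw [h1, Fin.card_Ici]
    simp only
    omega

theorem le_nu {A : Matrix V V ℝ} (hA : A.IsHermitian) {c : ℕ} (hc : c ≤ Fintype.card V)
    (h : ∀ i : Fin (Fintype.card V), Fintype.card V - c ≤ (i : ℕ) → hA.eigenvalues₀ i ≤ 0) :
    c ≤ nu hA := by
  rw [nu_eq, ← card_ge c hc]
  refine Finset.card_le_card fun i hi => ?_
  rw [Finset.mem_filter] at hi ⊢
  exact ⟨Finset.mem_univ _, h i hi.2⟩

/-- a subspace on which the form is nonpositive -/
theorem nu_ge {A : Matrix V V ℝ} (hA : A.IsHermitian) {c : ℕ}
    (L : (Fin c → ℝ) →ₗ[ℝ] (V → ℝ)) (hL : Function.Injective L)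
    (hform : ∀ a, ∑ x, ∑ y, A x y * (L a x * L a y) ≤ 0) : c ≤ nu hA := by
  have hc : c ≤ Fintype.card V := by
    have h := LinearMap.finrank_le_finrank_of_injective hL
    simpa using h
  rcases Nat.eq_zero_or_pos c with h0 | h0
  · omega
  have hn : Fintype.card V - c < Fintype.card V := by omega
  have h1 : hA.eigenvalues₀ ⟨Fintype.card V - c, hn⟩ ≤ 0 := by
    refine eigenvalues₀_le hA _ (m := c) (by simp only; omega) L hL fun a => ?_
    rw [zero_mul]
    exact hform a
  refine le_nu hA hc fun i hi => ?_
  exact (hA.eigenvalues₀_antitone (Fin.mk_le_of_le_val hi)).trans h1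

theorem nonpos_of_lt_nu {A : Matrix V V ℝ} (hA : A.IsHermitian) (i : Fin (Fintype.card V))
    (h : Fintype.card V - nu hA ≤ i) : hA.eigenvalues₀ i ≤ 0 := by
  by_contra hpos
  push Not at hpos
  have h1 : (Finset.univ.filter fun i : Fin (Fintype.card V) => hA.eigenvalues₀ i ≤ 0) ⊆
      Finset.Ioi i := by
    intro j hj
    rw [Finset.mem_filter] at hj
    rw [Finset.mem_Ioi]
    by_contra hji
    have h2 := hA.eigenvalues₀_antitone (not_lt.mp hji)
    linarith [hj.2]
  have h2 := Finset.card_le_card h1
  rw [← nu_eq, Fin.card_Ioi] at h2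
  have := i.2
  omega

theorem form_basis {A : Matrix V V ℝ} (hA : A.IsHermitian) (i j : V) :
    ∑ x, ∑ y, A x y * (hA.eigenvectorBasis i x * hA.eigenvectorBasis j y) =
      if i = j then hA.eigenvalues i else 0 := by
  have h1 : ∀ x, ∑ y, A x y * hA.eigenvectorBasis j y =
      hA.eigenvalues j * hA.eigenvectorBasis j x := by
    intro x
    have h := congrFun (hA.mulVec_eigenvectorBasis j) x
    simpa [Matrix.mulVec, dotProduct] using h
  have h2 : ∑ x, hA.eigenvectorBasis i x * hA.eigenvectorBasis j x = if i = j then 1 else 0 := by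
    have h := (orthonormal_iff_ite.mp hA.eigenvectorBasis.orthonormal) i j
    rw [PiLp.inner_apply] at h
    rw [← h]
    refine Finset.sum_congr rfl fun x _ => ?_
    simp [mul_comm]
  calc ∑ x, ∑ y, A x y * (hA.eigenvectorBasis i x * hA.eigenvectorBasis j y)
      = ∑ x, hA.eigenvectorBasis i x * ∑ y, A x y * hA.eigenvectorBasis j y := by
        refine Finset.sum_congr rfl fun x _ => ?_
        rw [Finset.mul_sum]
        exact Finset.sum_congr rfl fun y _ => by ring
    _ = hA.eigenvalues j * ∑ x, hA.eigenvectorBasis i x * hA.eigenvectorBasis j x := by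
        rw [Finset.mul_sum]
        refine Finset.sum_congr rfl fun x _ => ?_
        rw [h1]
        ring
    _ = _ := by
        rw [h2]
        split_ifs with h
        · rw [h, mul_one]
        · rw [mul_zero]

theorem inner_basis {A : Matrix V V ℝ} (hA : A.IsHermitian) (i j : V) :
    ∑ x, hA.eigenvectorBasis i x * hA.eigenvectorBasis j x = if i = j then 1 else 0 := by
  have h := (orthonormal_iff_ite.mp hA.eigenvectorBasis.orthonormal) i j
  rw [PiLp.inner_apply] at h
  rw [← h]
  refine Finset.sum_congr rfl fun x _ => ?_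
  simp [mul_comm]

/-- the span of the eigenvectors with nonpositive eigenvalue -/
theorem exists_nonpos {A : Matrix V V ℝ} (hA : A.IsHermitian) :
    ∃ L : (Fin (nu hA) → ℝ) →ₗ[ℝ] (V → ℝ), Function.Injective L ∧
      ∀ a, ∑ x, ∑ y, A x y * (L a x * L a y) ≤ 0 := by
  set N := Finset.univ.filter fun j => hA.eigenvalues j ≤ 0 with hN
  let e : Fin (nu hA) ≃ N := N.equivFin.symm
  let L : (Fin (nu hA) → ℝ) →ₗ[ℝ] (V → ℝ) :=
    { toFun := fun a x => ∑ i, a i * hA.eigenvectorBasis (e i) x
      map_add' := fun a b => by
        funext x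
        simp [add_mul, Finset.sum_add_distrib]
      map_smul' := fun c a => by
        funext x
        simp [Finset.mul_sum, mul_assoc] }
  have hLdef : ∀ a x, L a x = ∑ i, a i * hA.eigenvectorBasis (e i) x := fun _ _ => rfl
  have hcoef : ∀ a i, ∑ x, L a x * hA.eigenvectorBasis (e i) x = a i := by
    intro a i
    calc ∑ x, L a x * hA.eigenvectorBasis (e i) x
        = ∑ x, ∑ j, a j * (hA.eigenvectorBasis (e j) x * hA.eigenvectorBasis (e i) x) := by
          refine Finset.sum_congr rfl fun x _ => ?_
          rw [hLdef, Finset.sum_mul]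
          exact Finset.sum_congr rfl fun j _ => by ring
      _ = ∑ j, a j * ∑ x, hA.eigenvectorBasis (e j) x * hA.eigenvectorBasis (e i) x := by
          rw [Finset.sum_comm]
          refine Finset.sum_congr rfl fun j _ => ?_
          rw [Finset.mul_sum]
      _ = a i := by
          simp only [inner_basis]
          rw [Finset.sum_eq_single i]
          · simp
          · intro j _ hji
            rw [if_neg, mul_zero]
            intro h
            exact hji (e.injective (Subtype.ext h))
          · intro h
            exact absurd (Finset.mem_univ _) h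
  refine ⟨L, ?_, ?_⟩
  · intro a b hab
    funext i
    rw [← hcoef a i, ← hcoef b i, hab]
  · intro a
    calc ∑ x, ∑ y, A x y * (L a x * L a y)
        = ∑ i, ∑ j, a i * a j * ∑ x, ∑ y,
            A x y * (hA.eigenvectorBasis (e i) x * hA.eigenvectorBasis (e j) y) := by
          have h1 : ∀ x y, A x y * (L a x * L a y) = ∑ i, ∑ j, a i * a j *
              (A x y * (hA.eigenvectorBasis (e i) x * hA.eigenvectorBasis (e j) y)) := by
            intro x y
            rw [hLdef, hLdef, Finset.sum_mul_sum, Finset.mul_sum]
            refine Finset.sum_congr rfl fun i _ => ?_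
            rw [Finset.mul_sum]
            exact Finset.sum_congr rfl fun j _ => by ring
          simp_rw [h1, Finset.mul_sum]
          rw [Finset.sum_congr rfl fun x _ => Finset.sum_comm]
          rw [Finset.sum_comm]
          refine Finset.sum_congr rfl fun i _ => ?_
          rw [Finset.sum_congr rfl fun x _ => Finset.sum_comm]
          rw [Finset.sum_comm]
      _ = ∑ i, a i * a i * hA.eigenvalues (e i) := by
          refine Finset.sum_congr rfl fun i _ => ?_
          rw [Finset.sum_eq_single i]
          · rw [form_basis, if_pos rfl]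
          · intro j _ hji
            rw [form_basis, if_neg, mul_zero]
            intro h
            exact hji (e.injective (Subtype.ext h.symm))
          · intro h
            exact absurd (Finset.mem_univ _) h
      _ ≤ 0 := by
          refine Finset.sum_nonpos fun i _ => ?_
          have h1 : hA.eigenvalues (e i) ≤ 0 := (Finset.mem_filter.mp (e i).2).2
          nlinarith [mul_self_nonneg (a i)]

/-- interlacing -/
theorem nu_submatrix_le {A : Matrix V V ℝ} (hA : A.IsHermitian) {W : Type*} [Fintype W]
    [DecidableEq W] (f : W → V) (hf : Function.Injective f) :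
    nu (hA.submatrix f) ≤ nu hA := by
  obtain ⟨L, hL, hform⟩ := exists_nonpos (hA.submatrix f)
  let Ext : (W → ℝ) →ₗ[ℝ] (V → ℝ) :=
    { toFun := fun w x => ∑ u, if f u = x then w u else 0
      map_add' := fun a b => by
        funext x
        simp only [Pi.add_apply]
        rw [← Finset.sum_add_distrib]
        refine Finset.sum_congr rfl fun u _ => ?_
        split_ifs <;> simp
      map_smul' := fun c a => by
        funext x
        simp only [Pi.smul_apply, smul_eq_mul, RingHom.id_apply]
        rw [Finset.mul_sum]
        refine Finset.sum_congr rfl fun u _ => ?_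
        split_ifs <;> simp }
  have hExt : ∀ w x, Ext w x = ∑ u, if f u = x then w u else 0 := fun _ _ => rfl
  have hExtf : ∀ w u, Ext w (f u) = w u := by
    intro w u
    rw [hExt, Finset.sum_eq_single u]
    · simp
    · intro v _ hv
      rw [if_neg fun h => hv (hf h)]
    · intro h
      exact absurd (Finset.mem_univ _) h
  have hsum : ∀ (w : W → ℝ) (g : V → ℝ), ∑ x, g x * Ext w x = ∑ u, g (f u) * w u := by
    intro w g
    simp_rw [hExt, Finset.mul_sum]
    rw [Finset.sum_comm]
    refine Finset.sum_congr rfl fun u _ => ?_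
    rw [Finset.sum_eq_single (f u)]
    · simp
    · intro x _ hx
      rw [if_neg (Ne.symm hx), mul_zero]
    · intro h
      exact absurd (Finset.mem_univ _) h
  refine nu_ge hA (Ext ∘ₗ L) ?_ ?_
  · intro a b hab
    apply hL
    funext u
    have := congrFun hab (f u)
    simpa [hExtf] using this
  · intro a
    have h := hform a
    simp only [Matrix.submatrix_apply] at h
    refine le_trans (le_of_eq ?_) h
    simp only [LinearMap.comp_apply]
    calc ∑ x, ∑ y, A x y * (Ext (L a) x * Ext (L a) y)
        = ∑ x, (∑ y, A x y * Ext (L a) y) * Ext (L a) x := by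
          refine Finset.sum_congr rfl fun x _ => ?_
          rw [Finset.sum_mul]
          exact Finset.sum_congr rfl fun y _ => by ring
      _ = ∑ u, (∑ y, A (f u) y * Ext (L a) y) * L a u := hsum _ _
      _ = ∑ u, (∑ v, A (f u) (f v) * L a v) * L a u := by
          refine Finset.sum_congr rfl fun u _ => ?_
          rw [hsum]
      _ = ∑ u, ∑ v, A (f u) (f v) * (L a u * L a v) := by
          refine Finset.sum_congr rfl fun u _ => ?_
          rw [Finset.sum_mul]
          exact Finset.sum_congr rfl fun v _ => by ring

end Pool.Agent.Lib.MP_b9b22b_co.Few
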