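import Mathlib

/-!
Random sines of a standard Gaussian vector.
-/

set_option autoImplicit false

open MeasureTheory ProbabilityTheory Real

namespace Pool.Agent.Lib.MP_b9b22b_co.Few

variable {E : Type*} [NormedAddCommGroup E] [InnerProductSpace ℝ E] [FiniteDimensional ℝ E]
  [MeasurableSpace E] [BorelSpace E]

theorem integrable_of_bdd {f : E → ℝ} (hf : Continuous f) {C : ℝ} (hC : ∀ z, |f z| ≤ C) :
    Integrable f (stdGaussian E) :=
  Integrable.of_bound hf.aestronglyMeasurable C (Filter.Eventually.of_forall fun z => by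
    rw [Real.norm_eq_abs]; exact hC z)

theorem integral_exp (t : E) :
    ∫ z, Complex.exp (inner ℝ z t * Complex.I) ∂(stdGaussian E) =
      ((Real.exp (-‖t‖ ^ 2 / 2) : ℝ) : ℂ) := by
  have h := charFun_stdGaussian (E := E) t
  rw [charFun_apply] at h
  rw [h]
  push_cast
  ring_nf

theorem integrable_exp (t : E) :
    Integrable (fun z : E => Complex.exp (inner ℝ z t * Complex.I)) (stdGaussian E) := by
  refine Integrable.of_bound ?_ 1 (Filter.Eventually.of_forall fun z => ?_)
  · exact Continuous.aestronglyMeasurable (by fun_prop)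
  · exact (Complex.norm_exp_ofReal_mul_I _).le

theorem integral_cos (t : E) :
    ∫ z, Real.cos (inner ℝ z t) ∂(stdGaussian E) = Real.exp (-‖t‖ ^ 2 / 2) := by
  have h := congrArg Complex.re (integral_exp t)
  rw [Complex.ofReal_re] at h
  rw [← h]
  have h2 := integral_re (integrable_exp t)
  simp only [RCLike.re_to_complex] at h2
  rw [← h2]
  refine integral_congr_ae (Filter.Eventually.of_forall fun z => ?_)
  simp only [Complex.exp_ofReal_mul_I_re]

theorem integral_sin (t : E) :
    ∫ z, Real.sin (inner ℝ z t) ∂(stdGaussian E) = 0 := by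
  have h := congrArg Complex.im (integral_exp t)
  rw [Complex.ofReal_im] at h
  rw [← h]
  have h2 := integral_im (integrable_exp t)
  simp only [RCLike.im_to_complex] at h2
  rw [← h2]
  refine integral_congr_ae (Filter.Eventually.of_forall fun z => ?_)
  simp only [Complex.exp_ofReal_mul_I_im]

theorem integral_sin_mul_sin (p q : E) :
    ∫ z, Real.sin (inner ℝ z p) * Real.sin (inner ℝ z q) ∂(stdGaussian E) =
      Real.exp (-(‖p‖ ^ 2 + ‖q‖ ^ 2) / 2) * Real.sinh (inner ℝ p q) := by
  have h1 : ∀ z : E, Real.sin (inner ℝ z p) * Real.sin (inner ℝ z q) =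
      Real.cos (inner ℝ z (p - q)) / 2 - Real.cos (inner ℝ z (p + q)) / 2 := by
    intro z
    rw [inner_sub_right, inner_add_right, Real.cos_sub, Real.cos_add]
    ring
  simp_rw [h1]
  rw [integral_sub, integral_div, integral_div, integral_cos, integral_cos]
  · have h2 : ‖p - q‖ ^ 2 = ‖p‖ ^ 2 + ‖q‖ ^ 2 - 2 * inner ℝ p q := by
      rw [norm_sub_sq_real]; ring
    have h3 : ‖p + q‖ ^ 2 = ‖p‖ ^ 2 + ‖q‖ ^ 2 + 2 * inner ℝ p q := by
      rw [norm_add_sq_real]; ring
    rw [h2, h3, Real.sinh_eq]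
    have h4 : -(‖p‖ ^ 2 + ‖q‖ ^ 2 - 2 * inner ℝ p q) / 2 =
        -(‖p‖ ^ 2 + ‖q‖ ^ 2) / 2 + inner ℝ p q := by ring
    have h5 : -(‖p‖ ^ 2 + ‖q‖ ^ 2 + 2 * inner ℝ p q) / 2 =
        -(‖p‖ ^ 2 + ‖q‖ ^ 2) / 2 + -inner ℝ p q := by ring
    rw [h4, h5, Real.exp_add, Real.exp_add]
    ring
  · exact (integrable_of_bdd (C := 1) (by fun_prop) fun z => Real.abs_cos_le_one _).div_const 2
  · exact (integrable_of_bdd (C := 1) (by fun_prop) fun z => Real.abs_cos_le_one _).div_const 2

/-- The two random weights `(1 + sin⟨z, p⟩)/2` and `(1 + sin⟨z, q⟩)/2`. -/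
theorem integral_weights (p q : E) :
    ∫ z, ((1 + Real.sin (inner ℝ z p)) / 2) * ((1 + Real.sin (inner ℝ z q)) / 2)
        ∂(stdGaussian E) =
      (1 + Real.exp (-(‖p‖ ^ 2 + ‖q‖ ^ 2) / 2) * Real.sinh (inner ℝ p q)) / 4 := by
  have h1 : ∀ z : E, ((1 + Real.sin (inner ℝ z p)) / 2) * ((1 + Real.sin (inner ℝ z q)) / 2) =
      ((1 + Real.sin (inner ℝ z p)) + Real.sin (inner ℝ z q)) / 4 +
        (Real.sin (inner ℝ z p) * Real.sin (inner ℝ z q)) / 4 := by
    intro z; ring
  have hs : ∀ t : E, Integrable (fun z : E => Real.sin (inner ℝ z t)) (stdGaussian E) :=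
    fun t => integrable_of_bdd (C := 1) (by fun_prop) fun z => Real.abs_sin_le_one _
  have hss : Integrable (fun z : E => Real.sin (inner ℝ z p) * Real.sin (inner ℝ z q))
      (stdGaussian E) := by
    refine integrable_of_bdd (C := 1) (by fun_prop) fun z => ?_
    rw [abs_mul]
    exact mul_le_one₀ (Real.abs_sin_le_one _) (abs_nonneg _) (Real.abs_sin_le_one _)
  have h0 : Integrable (fun _ : E => (1 : ℝ)) (stdGaussian E) := integrable_const 1
  have hA1 : Integrable (fun z : E => 1 + Real.sin (inner ℝ z p)) (stdGaussian E) :=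
    h0.add (hs p)
  have hA : Integrable (fun z : E => (1 + Real.sin (inner ℝ z p)) + Real.sin (inner ℝ z q))
      (stdGaussian E) := hA1.add (hs q)
  have e1 : ∫ z, (1 + Real.sin (inner ℝ z p)) + Real.sin (inner ℝ z q) ∂(stdGaussian E) = 1 := by
    rw [integral_add hA1 (hs q), integral_add h0 (hs p), integral_sin, integral_sin]
    simp
  simp_rw [h1]
  rw [integral_add (hA.div_const 4) (hss.div_const 4), integral_div, integral_div,
    integral_sin_mul_sin, e1]
  ring

end Pool.Agent.Lib.MP_b9b22b_co.Few
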