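import Pool.Agent.Lib.MP_b9b22b_co.Few.Pair

/-!
Many vertex-disjoint pairs of vertices whose difference vectors are mutually orthogonal with
respect to the adjacency form.
-/

set_option autoImplicit false

open Finset

namespace Pool.Agent.Lib.MP_b9b22b_co.Few

variable {V : Type*}

/-- A system of pairs `(a, b)` in `W`: no two members share a vertex and the difference vectors
`e_a - e_b` are mutually orthogonal for the adjacency form. -/
structure Sys (G : SimpleGraph V) (W : Finset V) (P : Finset (V × V)) : Prop where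
  mem : ∀ p ∈ P, p.1 ∈ W ∧ p.2 ∈ W
  ne : ∀ p ∈ P, p.1 ≠ p.2
  disj : ∀ p ∈ P, ∀ p' ∈ P, p ≠ p' → p.1 ≠ p'.1 ∧ p.1 ≠ p'.2 ∧ p.2 ≠ p'.1 ∧ p.2 ≠ p'.2
  orth : ∀ p ∈ P, ∀ p' ∈ P, p ≠ p' →
    ind (G.Adj p.1 p'.1) - ind (G.Adj p.1 p'.2) - ind (G.Adj p.2 p'.1) + ind (G.Adj p.2 p'.2) = 0

theorem ind_adj_comm (G : SimpleGraph V) (x y : V) : ind (G.Adj x y) = ind (G.Adj y x) := by
  rw [G.adj_comm]

theorem Sys.union [DecidableEq V] {G : SimpleGraph V} {W W₁ W₂ : Finset V}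
    {P P' : Finset (V × V)} (h₁ : Sys G W₁ P) (h₂ : Sys G W₂ P') (hW₁ : W₁ ⊆ W) (hW₂ : W₂ ⊆ W)
    (hsep : ∀ p ∈ P, p.1 ∉ W₂ ∧ p.2 ∉ W₂) (b : ℝ)
    (hom : ∀ p ∈ P, ∀ y ∈ W₂, ind (G.Adj p.1 y) = b ∧ ind (G.Adj p.2 y) = b) :
    Sys G W (P ∪ P') ∧ (P ∪ P').card = P.card + P'.card := by
  refine ⟨⟨?_, ?_, ?_, ?_⟩, ?_⟩
  · intro p hp
    rcases Finset.mem_union.mp hp with h | h
    · exact ⟨hW₁ (h₁.mem p h).1, hW₁ (h₁.mem p h).2⟩
    · exact ⟨hW₂ (h₂.mem p h).1, hW₂ (h₂.mem p h).2⟩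
  · intro p hp
    rcases Finset.mem_union.mp hp with h | h
    · exact h₁.ne p h
    · exact h₂.ne p h
  · intro p hp p' hp' hne
    rcases Finset.mem_union.mp hp with h | h <;> rcases Finset.mem_union.mp hp' with h' | h'
    · exact h₁.disj p h p' h' hne
    · refine ⟨fun e => (hsep p h).1 (e ▸ (h₂.mem p' h').1),
        fun e => (hsep p h).1 (e ▸ (h₂.mem p' h').2),
        fun e => (hsep p h).2 (e ▸ (h₂.mem p' h').1),
        fun e => (hsep p h).2 (e ▸ (h₂.mem p' h').2)⟩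
    · refine ⟨fun e => (hsep p' h').1 (e ▸ (h₂.mem p h).1),
        fun e => (hsep p' h').2 (e ▸ (h₂.mem p h).1),
        fun e => (hsep p' h').1 (e ▸ (h₂.mem p h).2),
        fun e => (hsep p' h').2 (e ▸ (h₂.mem p h).2)⟩
    · exact h₂.disj p h p' h' hne
  · intro p hp p' hp' hne
    rcases Finset.mem_union.mp hp with h | h <;> rcases Finset.mem_union.mp hp' with h' | h'
    · exact h₁.orth p h p' h' hne
    · rw [(hom p h _ (h₂.mem p' h').1).1, (hom p h _ (h₂.mem p' h').2).1,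
        (hom p h _ (h₂.mem p' h').1).2, (hom p h _ (h₂.mem p' h').2).2]
      ring
    · rw [ind_adj_comm G p.1 p'.1, ind_adj_comm G p.1 p'.2, ind_adj_comm G p.2 p'.1,
        ind_adj_comm G p.2 p'.2, (hom p' h' _ (h₂.mem p h).1).1, (hom p' h' _ (h₂.mem p h).1).2,
        (hom p' h' _ (h₂.mem p h).2).1, (hom p' h' _ (h₂.mem p h).2).2]
      ring
    · exact h₂.orth p h p' h' hne
  · rw [Finset.card_union_of_disjoint]
    rw [Finset.disjoint_left]
    intro p hp hp'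
    exact (hsep p hp).1 (h₂.mem p hp').1

theorem clean (t : V → V → Prop) {K : ℝ} (X Y : Finset V) (hY : 0 < Y.card)
    (h : K * cnt t X Y ≤ X.card * Y.card) :
    ∃ X₁ ⊆ X, (X.card : ℝ) ≤ 2 * X₁.card ∧
      ∀ x ∈ X₁, K * ∑ y ∈ Y, ind (t x y) ≤ 2 * Y.card := by
  classical
  set X₁ := X.filter (fun x => K * ∑ y ∈ Y, ind (t x y) ≤ 2 * Y.card) with hX₁
  refine ⟨X₁, Finset.filter_subset _ _, ?_, fun x hx => (Finset.mem_filter.mp hx).2⟩
  have hY' : (0 : ℝ) < Y.card := by exact_mod_cast hY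
  have hK : 0 ≤ K ∨ K < 0 := le_or_gt 0 K
  rcases hK with hK | hK
  · have h1 : ((X \ X₁).card : ℝ) * (2 * Y.card) ≤ K * cnt t X Y := by
      rw [cnt, Finset.mul_sum, ← Finset.sum_sdiff (Finset.filter_subset _ X : X₁ ⊆ X)]
      have h2 : ((X \ X₁).card : ℝ) * (2 * Y.card) ≤
          ∑ x ∈ X \ X₁, K * ∑ y ∈ Y, ind (t x y) := by
        rw [← nsmul_eq_mul, ← Finset.sum_const]
        refine Finset.sum_le_sum fun x hx => ?_
        rw [Finset.mem_sdiff, hX₁, Finset.mem_filter, not_and] at hx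
        exact (not_le.mp (hx.2 hx.1)).le
      have h3 : 0 ≤ ∑ x ∈ X₁, K * ∑ y ∈ Y, ind (t x y) :=
        Finset.sum_nonneg fun x _ => mul_nonneg hK (Finset.sum_nonneg fun _ _ => ind_nonneg _)
      linarith
    have h4 : ((X \ X₁).card : ℝ) * 2 ≤ X.card := by
      have h5 : ((X \ X₁).card : ℝ) * 2 * Y.card ≤ X.card * Y.card := by
        calc ((X \ X₁).card : ℝ) * 2 * Y.card = ((X \ X₁).card : ℝ) * (2 * Y.card) := by ring
          _ ≤ _ := h1.trans h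
      exact le_of_mul_le_mul_right h5 hY'
    have h6 : (X.card : ℝ) = (X \ X₁).card + X₁.card := by
      have := Finset.card_sdiff_add_card_eq_card (Finset.filter_subset _ X : X₁ ⊆ X)
      rw [← this]
      push_cast
      ring
    linarith
  · have h1 : X₁ = X := by
      rw [hX₁, Finset.filter_true_of_mem]
      intro x _
      have h2 : 0 ≤ ∑ y ∈ Y, ind (t x y) := Finset.sum_nonneg fun _ _ => ind_nonneg _
      nlinarith
    rw [h1]
    have : (0 : ℝ) ≤ X.card := by positivity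
    linarith

theorem avoid [DecidableEq V] (t : V → V → Prop) {K : ℝ} (hK : 0 < K) (U Y : Finset V)
    (h : ∀ x ∈ U, K * ∑ y ∈ Y, ind (t x y) ≤ 2 * Y.card) :
    ∃ Y₁ ⊆ Y, (Y.card : ℝ) ≤ Y₁.card + U.card + U.card * (2 * Y.card / K) ∧
      (∀ y ∈ Y₁, y ∉ U) ∧ ∀ x ∈ U, ∀ y ∈ Y₁, ¬ t x y := by
  classical
  set Y₁ := Y.filter (fun y => y ∉ U ∧ ∀ x ∈ U, ¬ t x y) with hY₁
  refine ⟨Y₁, Finset.filter_subset _ _, ?_, fun y hy => (Finset.mem_filter.mp hy).2.1,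
    fun x hx y hy => (Finset.mem_filter.mp hy).2.2 x hx⟩
  have h1 : Y \ Y₁ ⊆ U ∪ U.biUnion (fun x => Y.filter (fun y => t x y)) := by
    intro y hy
    rw [Finset.mem_sdiff, hY₁, Finset.mem_filter, not_and] at hy
    have h2 := hy.2 hy.1
    rw [Finset.mem_union]
    by_cases hyU : y ∈ U
    · exact Or.inl hyU
    · right
      push Not at h2
      obtain ⟨x, hx, ht⟩ := h2 hyU
      rw [Finset.mem_biUnion]
      exact ⟨x, hx, Finset.mem_filter.mpr ⟨hy.1, ht⟩⟩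
  have h2 : ((Y \ Y₁).card : ℝ) ≤ U.card + ∑ x ∈ U, ((Y.filter (fun y => t x y)).card : ℝ) := by
    have h3 := (Finset.card_le_card h1).trans ((Finset.card_union_le _ _).trans
      (Nat.add_le_add_left Finset.card_biUnion_le _))
    exact_mod_cast h3
  have h3 : ∀ x ∈ U, ((Y.filter (fun y => t x y)).card : ℝ) ≤ 2 * Y.card / K := by
    intro x hx
    rw [le_div_iff₀ hK, mul_comm]
    refine le_trans (le_of_eq ?_) (h x hx)
    congr 1
    rw [Finset.card_filter]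
    push_cast
    refine Finset.sum_congr rfl fun y _ => ?_
    by_cases ht : t x y
    · rw [if_pos ht, ind_of ht]
    · rw [if_neg ht, ind_not_of ht]
  have h4 : ∑ x ∈ U, ((Y.filter (fun y => t x y)).card : ℝ) ≤ U.card * (2 * Y.card / K) := by
    rw [← nsmul_eq_mul, ← Finset.sum_const]
    exact Finset.sum_le_sum h3
  have h6 : (Y.card : ℝ) = (Y \ Y₁).card + Y₁.card := by
    have := Finset.card_sdiff_add_card_eq_card (Finset.filter_subset _ Y : Y₁ ⊆ Y)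
    rw [← this]
    push_cast
    ring
  linarith

/-- The conclusion of `pair` for all rectangles in `V₁`. -/
def RectProp (G : SimpleGraph V) (V₁ : Finset V) (m : ℕ) (K : ℝ) : Prop :=
  ∀ X₀ ⊆ V₁, ∀ Y₀ ⊆ V₁, ∃ X ⊆ X₀, ∃ Y ⊆ Y₀,
    (X₀.card : ℝ) * Y₀.card ≤ 4 ^ (m + 1) * (X.card * Y.card) ∧
    (K * cnt (fun x y => ¬ G.Adj x y) X Y ≤ X.card * Y.card ∨
      K * cnt (fun x y => G.Adj x y) X Y ≤ X.card * Y.card)

/-- The conclusion of `pair` for all subsets of `V₁`. -/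
def PairProp (G : SimpleGraph V) (V₁ : Finset V) (m : ℕ) (K : ℝ) : Prop :=
  ∀ W ⊆ V₁, ∃ X ⊆ W, ∃ Y ⊆ W, (W.card : ℝ) ^ 2 ≤ 4 ^ (m + 1) * (X.card * Y.card) ∧
    (K * cnt (fun x y => ¬ G.Adj x y) X Y ≤ X.card * Y.card ∨
      K * cnt (fun x y => G.Adj x y) X Y ≤ X.card * Y.card)

theorem RectProp.pairProp {G : SimpleGraph V} {V₁ : Finset V} {m : ℕ} {K : ℝ}
    (h : RectProp G V₁ m K) : PairProp G V₁ m K := by
  intro W hW
  obtain ⟨X, hX, Y, hY, h1, h2⟩ := h W hW W hW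
  exact ⟨X, hX, Y, hY, by rw [sq]; exact h1, h2⟩

theorem grow_step [DecidableEq V] {G : SimpleGraph V} {V₁ : Finset V} {m M j : ℕ} {K : ℝ}
    (hK : (2 : ℝ) ^ (M + 3) ≤ K) (hj : j + 1 ≤ M)
    (ih : ∀ W ⊆ V₁, 2 * ((4 : ℝ) ^ (m + 2)) ^ j ≤ W.card → ∃ P, Sys G W P ∧ P.card = 2 ^ j)
    (s : V → V → Prop) (b : ℝ) (hs : ∀ x y, s x y → ind (G.Adj x y) = b)
    {W X Y : Finset V} (hW : W ⊆ V₁) (hX : X ⊆ W) (hY : Y ⊆ W)
    (hcard : 2 * ((4 : ℝ) ^ (m + 2)) ^ (j + 1) ≤ W.card)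
    (hXY : (W.card : ℝ) ^ 2 ≤ 4 ^ (m + 1) * (X.card * Y.card))
    (hmin : K * cnt (fun x y => ¬ s x y) X Y ≤ X.card * Y.card) :
    ∃ P, Sys G W P ∧ P.card = 2 ^ (j + 1) := by
  have hK0 : 0 < K := lt_of_lt_of_le (by positivity) hK
  set L : ℝ := (4 : ℝ) ^ (m + 2) with hL
  have hL4 : (4 : ℝ) ≤ L := by
    rw [hL]
    calc (4 : ℝ) = 4 ^ 1 := by norm_num
      _ ≤ 4 ^ (m + 2) := pow_le_pow_right₀ (by norm_num) (by omega)
  have hLj : (1 : ℝ) ≤ L ^ j := one_le_pow₀ (by linarith)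
  have hL' : L = 4 * 4 ^ (m + 1) := by rw [hL]; ring
  have hWpos : (0 : ℝ) < W.card := lt_of_lt_of_le (by positivity) hcard
  have hXW : (X.card : ℝ) ≤ W.card := by exact_mod_cast Finset.card_le_card hX
  have hYW : (Y.card : ℝ) ≤ W.card := by exact_mod_cast Finset.card_le_card hY
  have h4 : (0 : ℝ) < 4 ^ (m + 1) := by positivity
  have hXc : (W.card : ℝ) ≤ 4 ^ (m + 1) * X.card := by
    have h1 : (W.card : ℝ) * W.card ≤ (4 ^ (m + 1) * X.card) * W.card := by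
      calc (W.card : ℝ) * W.card = (W.card : ℝ) ^ 2 := by ring
        _ ≤ 4 ^ (m + 1) * (X.card * Y.card) := hXY
        _ ≤ 4 ^ (m + 1) * (X.card * W.card) := by gcongr
        _ = (4 ^ (m + 1) * X.card) * W.card := by ring
    exact le_of_mul_le_mul_right h1 hWpos
  have hYc : (W.card : ℝ) ≤ 4 ^ (m + 1) * Y.card := by
    have h1 : (W.card : ℝ) * W.card ≤ (4 ^ (m + 1) * Y.card) * W.card := by
      calc (W.card : ℝ) * W.card = (W.card : ℝ) ^ 2 := by ring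
        _ ≤ 4 ^ (m + 1) * (X.card * Y.card) := hXY
        _ ≤ 4 ^ (m + 1) * (W.card * Y.card) := by gcongr
        _ = (4 ^ (m + 1) * Y.card) * W.card := by ring
    exact le_of_mul_le_mul_right h1 hWpos
  have hkey : ∀ c : ℝ, (W.card : ℝ) ≤ 4 ^ (m + 1) * c → 8 * L ^ j ≤ c := by
    intro c hc
    have h1 : 4 ^ (m + 1) * (8 * L ^ j) ≤ 4 ^ (m + 1) * c := by
      calc 4 ^ (m + 1) * (8 * L ^ j) = 2 * L ^ (j + 1) := by rw [pow_succ, hL']; ring
        _ ≤ _ := hcard.trans hc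
    exact le_of_mul_le_mul_left h1 h4
  have hX8 := hkey _ hXc
  have hY8 := hkey _ hYc
  have hYpos : 0 < Y.card := by
    have : (0 : ℝ) < Y.card := lt_of_lt_of_le (by positivity) hY8
    exact_mod_cast this
  obtain ⟨X₁, hX₁, hX₁c, hX₁d⟩ := clean (fun x y => ¬ s x y) X Y hYpos hmin
  obtain ⟨P, hP, hPc⟩ := ih X₁ ((hX₁.trans hX).trans hW) (by linarith)
  set U : Finset V := P.image Prod.fst ∪ P.image Prod.snd with hU
  have hUX : U ⊆ X₁ := by
    intro x hx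
    rw [hU, Finset.mem_union, Finset.mem_image, Finset.mem_image] at hx
    rcases hx with ⟨p, hp, rfl⟩ | ⟨p, hp, rfl⟩
    · exact (hP.mem p hp).1
    · exact (hP.mem p hp).2
  have hUc : (U.card : ℝ) ≤ 2 ^ (j + 1) := by
    have h1 : U.card ≤ 2 ^ (j + 1) := by
      calc U.card ≤ (P.image Prod.fst).card + (P.image Prod.snd).card :=
            Finset.card_union_le _ _
        _ ≤ P.card + P.card := Nat.add_le_add Finset.card_image_le Finset.card_image_le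
        _ = 2 ^ (j + 1) := by rw [hPc]; ring
    exact_mod_cast h1
  obtain ⟨Y₁, hY₁, hY₁c, hY₁U, hY₁s⟩ := avoid (fun x y => ¬ s x y) hK0 U Y
    (fun x hx => hX₁d x (hUX hx))
  have hLj2 : (2 : ℝ) ^ j ≤ L ^ j := pow_le_pow_left₀ (by norm_num) (by linarith) j
  have h5 : (U.card : ℝ) * (2 * Y.card / K) ≤ Y.card / 4 := by
    have h6 : (U.card : ℝ) * 8 ≤ K := by
      calc (U.card : ℝ) * 8 ≤ 2 ^ (j + 1) * 8 := by gcongr
        _ ≤ 2 ^ M * 8 := by
            gcongr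
            · norm_num
        _ = 2 ^ (M + 3) := by ring
        _ ≤ K := hK
    rw [← mul_div_assoc, div_le_iff₀ hK0]
    have h7 : (0 : ℝ) ≤ Y.card := by positivity
    nlinarith
  have h8 : (U.card : ℝ) ≤ Y.card / 4 := by
    calc (U.card : ℝ) ≤ 2 ^ (j + 1) := hUc
      _ = 2 * 2 ^ j := by ring
      _ ≤ 2 * L ^ j := by linarith
      _ ≤ Y.card / 4 := by linarith
  obtain ⟨P', hP', hPc'⟩ := ih Y₁ ((hY₁.trans hY).trans hW) (by linarith)
  have hmemU : ∀ p ∈ P, p.1 ∈ U ∧ p.2 ∈ U := by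
    intro p hp
    rw [hU]
    exact ⟨Finset.mem_union_left _ (Finset.mem_image_of_mem _ hp),
      Finset.mem_union_right _ (Finset.mem_image_of_mem _ hp)⟩
  obtain ⟨h9, h10⟩ := Sys.union hP hP' (hX₁.trans hX) (hY₁.trans hY)
    (fun p hp => ⟨fun h => hY₁U _ h (hmemU p hp).1, fun h => hY₁U _ h (hmemU p hp).2⟩) b
    (fun p hp y hy => ⟨hs _ _ (not_not.mp (hY₁s _ (hmemU p hp).1 y hy)),
      hs _ _ (not_not.mp (hY₁s _ (hmemU p hp).2 y hy))⟩)
  exact ⟨P ∪ P', h9, by rw [h10, hPc, hPc']; ring⟩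

theorem grow [DecidableEq V] {G : SimpleGraph V} {V₁ : Finset V} {m M : ℕ} {K : ℝ}
    (hK : (2 : ℝ) ^ (M + 3) ≤ K) (hP : PairProp G V₁ m K) (j : ℕ) (hj : j ≤ M) :
    ∀ W ⊆ V₁, 2 * ((4 : ℝ) ^ (m + 2)) ^ j ≤ W.card → ∃ P, Sys G W P ∧ P.card = 2 ^ j := by
  induction j with
  | zero =>
    intro W _ h
    have h1 : 1 < W.card := by
      have h2 : (2 : ℝ) ≤ W.card := by simpa using h
      have h3 : 2 ≤ W.card := by exact_mod_cast h2
      omega
    obtain ⟨x, hx, y, hy, hxy⟩ := Finset.one_lt_card.mp h1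
    refine ⟨{(x, y)}, ⟨?_, ?_, ?_, ?_⟩, by simp⟩
    · intro p hp
      rw [Finset.mem_singleton] at hp
      subst hp
      exact ⟨hx, hy⟩
    · intro p hp
      rw [Finset.mem_singleton] at hp
      subst hp
      exact hxy
    · intro p hp p' hp' hne
      rw [Finset.mem_singleton] at hp hp'
      exact absurd (hp.trans hp'.symm) hne
    · intro p hp p' hp' hne
      rw [Finset.mem_singleton] at hp hp'
      exact absurd (hp.trans hp'.symm) hne
  | succ j ih =>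
    intro W hW hcard
    obtain ⟨X, hX, Y, hY, hXY, h | h⟩ := hP W hW
    · refine grow_step hK hj (ih (by omega)) (fun x y => G.Adj x y) 1 (fun x y h => ind_of h) hW
        hX hY hcard hXY h
    · refine grow_step hK hj (ih (by omega)) (fun x y => ¬ G.Adj x y) 0
        (fun x y h => ind_not_of h) hW hX hY hcard hXY ?_
      simpa only [not_not] using h

end Pool.Agent.Lib.MP_b9b22b_co.Few
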