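import Pool.Agent.Lib.MP_b9b22b_co.Few.Step

/-!
Nearly homogeneous pairs.
-/

set_option autoImplicit false

open MeasureTheory ProbabilityTheory Real Finset

namespace Pool.Agent.Lib.MP_b9b22b_co.Few

open Classical in
/-- indicator of a proposition -/
noncomputable def ind (P : Prop) : ℝ := if P then 1 else 0

theorem ind_of {P : Prop} (h : P) : ind P = 1 := if_pos h

theorem ind_not_of {P : Prop} (h : ¬ P) : ind P = 0 := if_neg h

theorem ind_nonneg (P : Prop) : 0 ≤ ind P := by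
  unfold ind
  split_ifs <;> norm_num

theorem ind_add_not (P : Prop) : ind P + ind (¬ P) = 1 := by
  by_cases h : P
  · rw [ind_of h, ind_not_of (not_not.mpr h)]; norm_num
  · rw [ind_not_of h, ind_of h]; norm_num

/-- number of pairs of `X × Y` with `s` -/
noncomputable def cnt {V : Type*} (s : V → V → Prop) (X Y : Finset V) : ℝ :=
  ∑ x ∈ X, ∑ y ∈ Y, ind (s x y)

theorem cnt_nonneg {V : Type*} (s : V → V → Prop) (X Y : Finset V) : 0 ≤ cnt s X Y :=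
  Finset.sum_nonneg fun _ _ => Finset.sum_nonneg fun _ _ => ind_nonneg _

theorem cnt_add {V : Type*} (s : V → V → Prop) (X Y : Finset V) :
    cnt s X Y + cnt (fun x y => ¬ s x y) X Y = X.card * Y.card := by
  simp only [cnt, ← Finset.sum_add_distrib, ind_add_not]
  simp

theorem Phi_eq {V : Type*} (s : V → V → Prop) (K : ℝ) (X Y : Finset V) :
    Phi s K X Y = cnt s X Y - K * cnt (fun x y => ¬ s x y) X Y := by
  rw [Phi, cnt, cnt, Finset.mul_sum, ← Finset.sum_sub_distrib]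
  refine Finset.sum_congr rfl fun x _ => ?_
  rw [Finset.mul_sum, ← Finset.sum_sub_distrib]
  refine Finset.sum_congr rfl fun y _ => ?_
  by_cases hs : s x y
  · rw [if_pos hs, ind_of hs, ind_not_of (not_not.mpr hs)]; ring
  · rw [if_neg hs, ind_not_of hs, ind_of hs]; ring

variable {E : Type*} [NormedAddCommGroup E] [InnerProductSpace ℝ E] [FiniteDimensional ℝ E]
  [MeasurableSpace E] [BorelSpace E]

theorem pair_aux {V : Type*} (s : V → V → Prop) {g : ℝ} (hg : 1 ≤ g) (p q : V → E) (m : ℕ)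
    {K : ℝ} (hK : 0 ≤ K)
    (hm : K * ((1 - Real.exp (-1) / g) / (1 + Real.exp (-1) / g)) ^ m ≤ 1 / 2)
    (X₀ Y₀ : Finset V)
    (hp : ∀ x ∈ X₀, ‖p x‖ ^ 2 ≤ g) (hq : ∀ y ∈ Y₀, ‖q y‖ ^ 2 ≤ g)
    (hs : ∀ x ∈ X₀, ∀ y ∈ Y₀, s x y → inner ℝ (p x) (q y) = 1)
    (hs' : ∀ x ∈ X₀, ∀ y ∈ Y₀, ¬ s x y → inner ℝ (p x) (q y) = -1)
    (hmaj : (X₀.card : ℝ) * Y₀.card / 2 ≤ cnt s X₀ Y₀) :
    ∃ X ⊆ X₀, ∃ Y ⊆ Y₀, (X₀.card : ℝ) * Y₀.card ≤ 4 ^ (m + 1) * (X.card * Y.card) ∧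
      K * cnt (fun x y => ¬ s x y) X Y ≤ X.card * Y.card := by
  have hg0 : 0 < g := by linarith
  obtain ⟨X, hX, Y, hY, h⟩ := steps s hg p q m K hK X₀ Y₀ hp hq hs hs'
  refine ⟨X, hX, Y, hY, ?_⟩
  set r : ℝ := (1 - Real.exp (-1) / g) / (1 + Real.exp (-1) / g) with hr
  set N : ℝ := (X₀.card : ℝ) * Y₀.card with hN
  have hN0 : 0 ≤ N := by positivity
  have h1 : N / 4 ≤ Phi s (K * r ^ m) X₀ Y₀ := by
    rw [Phi_eq]
    have h2 := cnt_add s X₀ Y₀
    have h3 := cnt_nonneg (fun x y => ¬ s x y) X₀ Y₀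
    nlinarith
  have h2 : (1 / 4 : ℝ) ^ m ≤ ((1 + Real.exp (-1) / g) / 4) ^ m := by
    apply pow_le_pow_left₀ (by norm_num)
    have : 0 ≤ Real.exp (-1) / g := by positivity
    linarith
  have h3 : (1 / 4 : ℝ) ^ m * (N / 4) ≤ Phi s K X Y := by
    refine le_trans ?_ h
    refine mul_le_mul h2 h1 (by positivity) (by positivity)
  rw [Phi_eq] at h3
  have h4 := cnt_add s X Y
  have h5 := cnt_nonneg (fun x y => ¬ s x y) X Y
  have h6 : 0 ≤ (1 / 4 : ℝ) ^ m * (N / 4) := by positivity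
  constructor
  · have h7 : (1 / 4 : ℝ) ^ m * (N / 4) ≤ X.card * Y.card := by nlinarith
    have h8 : (4 : ℝ) ^ (m + 1) * ((1 / 4 : ℝ) ^ m * (N / 4)) = N := by
      rw [pow_succ, one_div, inv_pow]
      field_simp
    rw [← h8]
    exact mul_le_mul_of_nonneg_left h7 (by positivity)
  · nlinarith

theorem r_pow_le {g K : ℝ} (hg : 1 ≤ g) {m : ℕ} (hK : 0 < K)
    (hm : g * Real.exp 1 * Real.log (2 * K) ≤ m) :
    K * ((1 - Real.exp (-1) / g) / (1 + Real.exp (-1) / g)) ^ m ≤ 1 / 2 := by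
  have hg0 : 0 < g := by linarith
  set c : ℝ := Real.exp (-1) / g with hc
  have hc0 : 0 < c := by positivity
  have hc1 : c ≤ 1 := by
    rw [hc, div_le_one hg0]
    exact (Real.exp_le_one_iff.mpr (by norm_num)).trans hg
  have h1 : (1 - c) / (1 + c) ≤ Real.exp (-c) := by
    have h2 : (1 - c) / (1 + c) ≤ 1 - c := div_le_self (by linarith) (by linarith)
    have h3 := Real.add_one_le_exp (-c)
    linarith
  have h2 : ((1 - c) / (1 + c)) ^ m ≤ Real.exp (-(c * m)) := by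
    calc ((1 - c) / (1 + c)) ^ m ≤ (Real.exp (-c)) ^ m :=
          pow_le_pow_left₀ (div_nonneg (by linarith) (by linarith)) h1 m
      _ = Real.exp (-(c * m)) := by rw [← Real.exp_nat_mul]; ring_nf
  have h3 : Real.log (2 * K) ≤ c * m := by
    have h4 : c * (g * Real.exp 1 * Real.log (2 * K)) ≤ c * m :=
      mul_le_mul_of_nonneg_left hm hc0.le
    have h5 : c * (g * Real.exp 1 * Real.log (2 * K)) = Real.log (2 * K) := by
      rw [hc, Real.exp_neg]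
      field_simp
    linarith
  have h4 : Real.exp (-(c * m)) ≤ 1 / (2 * K) := by
    have h5 : Real.exp (-(c * m)) ≤ Real.exp (-Real.log (2 * K)) :=
      Real.exp_le_exp.mpr (by linarith)
    rw [Real.exp_neg (Real.log (2 * K)), Real.exp_log (by positivity)] at h5
    rw [one_div]
    exact h5
  calc K * ((1 - c) / (1 + c)) ^ m ≤ K * (1 / (2 * K)) :=
        mul_le_mul_of_nonneg_left (h2.trans h4) hK.le
    _ = 1 / 2 := by field_simp

/-- In every rectangle `X₀ × Y₀` there is a nearly homogeneous large rectangle. -/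
theorem pair {V : Type*} (s : V → V → Prop) {g : ℝ} (hg : 1 ≤ g) (p q : V → E) {m : ℕ}
    {K : ℝ} (hK : 0 < K) (hm : g * Real.exp 1 * Real.log (2 * K) ≤ m)
    (X₀ Y₀ : Finset V)
    (hp : ∀ x ∈ X₀, ‖p x‖ ^ 2 ≤ g) (hq : ∀ y ∈ Y₀, ‖q y‖ ^ 2 ≤ g)
    (hs : ∀ x ∈ X₀, ∀ y ∈ Y₀, s x y → inner ℝ (p x) (q y) = 1)
    (hs' : ∀ x ∈ X₀, ∀ y ∈ Y₀, ¬ s x y → inner ℝ (p x) (q y) = -1) :
    ∃ X ⊆ X₀, ∃ Y ⊆ Y₀, (X₀.card : ℝ) * Y₀.card ≤ 4 ^ (m + 1) * (X.card * Y.card) ∧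
      (K * cnt (fun x y => ¬ s x y) X Y ≤ X.card * Y.card ∨
        K * cnt s X Y ≤ X.card * Y.card) := by
  have hr := r_pow_le hg hK hm
  have hadd := cnt_add s X₀ Y₀
  by_cases hmaj : (X₀.card : ℝ) * Y₀.card / 2 ≤ cnt s X₀ Y₀
  · obtain ⟨X, hX, Y, hY, h1, h2⟩ := pair_aux s hg p q m hK.le hr X₀ Y₀ hp hq hs hs' hmaj
    exact ⟨X, hX, Y, hY, h1, Or.inl h2⟩
  · have hmaj' : (X₀.card : ℝ) * Y₀.card / 2 ≤ cnt (fun x y => ¬ s x y) X₀ Y₀ := by
      push Not at hmaj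
      nlinarith
    obtain ⟨X, hX, Y, hY, h1, h2⟩ := pair_aux (fun x y => ¬ s x y) hg p (fun y => -q y) m hK.le
      hr X₀ Y₀ hp (fun y hy => by rw [norm_neg]; exact hq y hy)
      (fun x hx y hy h => by rw [inner_neg_right, hs' x hx y hy h]; norm_num)
      (fun x hx y hy h => by rw [inner_neg_right, hs x hx y hy (not_not.mp h)]) hmaj'
    refine ⟨X, hX, Y, hY, h1, Or.inr ?_⟩
    simpa only [not_not] using h2

end Pool.Agent.Lib.MP_b9b22b_co.Few
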