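import Pool.Agent.Lib.MP_b9b22b_co.Few.Gauss

/-!
Nearly homogeneous pairs from a factorisation of a sign matrix with short vectors.
-/

set_option autoImplicit false

open MeasureTheory ProbabilityTheory Real Finset

namespace Pool.Agent.Lib.MP_b9b22b_co.Few

open Classical in
/-- `e_s - K e_(not s)` on `X × Y`. -/
noncomputable def Phi {V : Type*} (s : V → V → Prop) (K : ℝ) (X Y : Finset V) : ℝ :=
  ∑ x ∈ X, ∑ y ∈ Y, if s x y then (1 : ℝ) else -K

theorem sum_le_filter {V : Type*} (X : Finset V) (u f : V → ℝ)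
    (hu : ∀ x, 0 ≤ u x ∧ u x ≤ 1) :
    ∑ x ∈ X, u x * f x ≤ ∑ x ∈ X.filter (fun x => 0 < f x), f x := by
  rw [Finset.sum_filter]
  refine Finset.sum_le_sum fun x _ => ?_
  split_ifs with h
  · nlinarith [(hu x).2]
  · push Not at h
    nlinarith [(hu x).1]

theorem vertex {V : Type*} (X Y : Finset V) (u v : V → ℝ) (c : V → V → ℝ)
    (hu : ∀ x, 0 ≤ u x ∧ u x ≤ 1) (hv : ∀ x, 0 ≤ v x ∧ v x ≤ 1) :
    ∃ X' ⊆ X, ∃ Y' ⊆ Y,
      ∑ x ∈ X, ∑ y ∈ Y, u x * v y * c x y ≤ ∑ x ∈ X', ∑ y ∈ Y', c x y := by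
  classical
  set f : V → ℝ := fun x => ∑ y ∈ Y, v y * c x y with hf
  have h1 : ∑ x ∈ X, ∑ y ∈ Y, u x * v y * c x y = ∑ x ∈ X, u x * f x := by
    refine Finset.sum_congr rfl fun x _ => ?_
    rw [hf, Finset.mul_sum]
    exact Finset.sum_congr rfl fun y _ => by ring
  have h2 := sum_le_filter X u f hu
  set X' := X.filter (fun x => 0 < f x) with hX'
  set g : V → ℝ := fun y => ∑ x ∈ X', c x y with hg
  have h3 : ∑ x ∈ X', f x = ∑ y ∈ Y, v y * g y := by
    rw [hf, Finset.sum_comm]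
    refine Finset.sum_congr rfl fun y _ => ?_
    rw [hg, Finset.mul_sum]
  have h4 := sum_le_filter Y v g hv
  refine ⟨X', Finset.filter_subset _ _, Y.filter (fun y => 0 < g y), Finset.filter_subset _ _, ?_⟩
  rw [h1]
  refine h2.trans (h3.le.trans (h4.trans (le_of_eq ?_)))
  rw [hg, Finset.sum_comm]

variable {E : Type*} [NormedAddCommGroup E] [InnerProductSpace ℝ E] [FiniteDimensional ℝ E]
  [MeasurableSpace E] [BorelSpace E]

theorem weight_bounds {g : ℝ} (hg : 1 ≤ g) {p q : E} (hp : ‖p‖ ^ 2 ≤ g) (hq : ‖q‖ ^ 2 ≤ g) :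
    Real.exp (-1) / g ≤
      Real.exp (-(‖(Real.sqrt g)⁻¹ • p‖ ^ 2 + ‖(Real.sqrt g)⁻¹ • q‖ ^ 2) / 2) *
        Real.sinh (1 / g) := by
  have hg0 : 0 < g := by linarith
  have h1 : ∀ w : E, ‖w‖ ^ 2 ≤ g → ‖(Real.sqrt g)⁻¹ • w‖ ^ 2 ≤ 1 := by
    intro w hw
    rw [norm_smul, mul_pow, norm_inv, Real.norm_eq_abs, abs_of_nonneg (Real.sqrt_nonneg g),
      inv_pow, Real.sq_sqrt hg0.le, inv_mul_le_iff₀ hg0, mul_one]
    exact hw
  have h2 := h1 p hp
  have h3 := h1 q hq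
  have h4 : Real.exp (-1) ≤
      Real.exp (-(‖(Real.sqrt g)⁻¹ • p‖ ^ 2 + ‖(Real.sqrt g)⁻¹ • q‖ ^ 2) / 2) := by
    apply Real.exp_le_exp.mpr
    linarith
  have h5 : 1 / g ≤ Real.sinh (1 / g) := Real.self_le_sinh_iff.mpr (by positivity)
  calc Real.exp (-1) / g = Real.exp (-1) * (1 / g) := by ring
    _ ≤ _ := mul_le_mul h4 h5 (by positivity) (Real.exp_nonneg _)

theorem inner_scaled {g : ℝ} (hg : 1 ≤ g) (p q : E) :
    inner ℝ ((Real.sqrt g)⁻¹ • p) ((Real.sqrt g)⁻¹ • q) = inner ℝ p q / g := by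
  have hg0 : 0 < g := by linarith
  rw [real_inner_smul_left, real_inner_smul_right, ← mul_assoc, ← mul_inv,
    Real.mul_self_sqrt hg0.le]
  ring

theorem step {V : Type*} (s : V → V → Prop) {g K : ℝ} (hg : 1 ≤ g) (hK : 0 ≤ K)
    (p q : V → E) (X Y : Finset V)
    (hp : ∀ x ∈ X, ‖p x‖ ^ 2 ≤ g) (hq : ∀ y ∈ Y, ‖q y‖ ^ 2 ≤ g)
    (hs : ∀ x ∈ X, ∀ y ∈ Y, s x y → inner ℝ (p x) (q y) = 1)
    (hs' : ∀ x ∈ X, ∀ y ∈ Y, ¬ s x y → inner ℝ (p x) (q y) = -1) :
    ∃ X' ⊆ X, ∃ Y' ⊆ Y,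
      (1 + Real.exp (-1) / g) / 4 *
        Phi s (K * ((1 - Real.exp (-1) / g) / (1 + Real.exp (-1) / g))) X Y ≤ Phi s K X' Y' := by
  classical
  have hg0 : 0 < g := by linarith
  set c : ℝ := Real.exp (-1) / g with hc
  have hc0 : 0 < c := by positivity
  set a : ℝ := (Real.sqrt g)⁻¹ with ha
  let u : E → V → ℝ := fun z x => (1 + Real.sin (inner ℝ z (a • p x))) / 2
  let v : E → V → ℝ := fun z y => (1 + Real.sin (inner ℝ z (a • q y))) / 2
  have hu : ∀ z x, 0 ≤ u z x ∧ u z x ≤ 1 := by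
    intro z x
    have h1 := Real.neg_one_le_sin (inner ℝ z (a • p x))
    have h2 := Real.sin_le_one (inner ℝ z (a • p x))
    constructor <;> simp only [u] <;> linarith
  have hv : ∀ z x, 0 ≤ v z x ∧ v z x ≤ 1 := by
    intro z x
    have h1 := Real.neg_one_le_sin (inner ℝ z (a • q x))
    have h2 := Real.sin_le_one (inner ℝ z (a • q x))
    constructor <;> simp only [v] <;> linarith
  let C : V → V → ℝ := fun x y => if s x y then (1 : ℝ) else -K
  let Psi : E → ℝ := fun z => ∑ x ∈ X, ∑ y ∈ Y, u z x * v z y * C x y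
  have hint : ∀ x y, Integrable (fun z => u z x * v z y * C x y) (stdGaussian E) := by
    intro x y
    have hcont : Continuous (fun z => u z x * v z y * C x y) := by
      simp only [u, v]
      fun_prop
    refine integrable_of_bdd hcont (C := |C x y|) fun z => ?_
    rw [abs_mul, abs_mul, abs_of_nonneg (hu z x).1, abs_of_nonneg (hv z y).1]
    have h1 : u z x * v z y ≤ 1 := mul_le_one₀ (hu z x).2 (hv z y).1 (hv z y).2
    nlinarith [abs_nonneg (C x y)]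
  have hPsi : Integrable Psi (stdGaussian E) :=
    integrable_finset_sum _ fun x _ => integrable_finset_sum _ fun y _ => hint x y
  have hval : ∫ z, Psi z ∂(stdGaussian E) =
      ∑ x ∈ X, ∑ y ∈ Y, (∫ z, u z x * v z y ∂(stdGaussian E)) * C x y := by
    simp only [Psi]
    rw [integral_finset_sum _ fun x _ => integrable_finset_sum _ fun y _ => hint x y]
    refine Finset.sum_congr rfl fun x _ => ?_
    rw [integral_finset_sum _ fun y _ => hint x y]
    refine Finset.sum_congr rfl fun y _ => ?_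
    rw [integral_mul_const]
  have hge : (1 + c) / 4 * Phi s (K * ((1 - c) / (1 + c))) X Y ≤
      ∫ z, Psi z ∂(stdGaussian E) := by
    rw [hval, Phi, Finset.mul_sum]
    refine Finset.sum_le_sum fun x hx => ?_
    rw [Finset.mul_sum]
    refine Finset.sum_le_sum fun y hy => ?_
    have h1 : ∫ z, u z x * v z y ∂(stdGaussian E) =
        (1 + Real.exp (-(‖a • p x‖ ^ 2 + ‖a • q y‖ ^ 2) / 2) *
          Real.sinh (inner ℝ (p x) (q y) / g)) / 4 := by
      simp only [u, v]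
      rw [integral_weights, ha, inner_scaled hg]
    have h2 := weight_bounds hg (hp x hx) (hq y hy)
    rw [← ha, ← hc] at h2
    rw [h1]
    simp only [C]
    by_cases h : s x y
    · rw [if_pos h, if_pos h, hs x hx y hy h]
      linarith
    · rw [if_neg h, if_neg h, hs' x hx y hy h, neg_div g (1 : ℝ), Real.sinh_neg]
      have h3 : (1 + c) / 4 * -(K * ((1 - c) / (1 + c))) = -(K * ((1 - c) / 4)) := by
        field_simp
      rw [h3]
      nlinarith
  obtain ⟨z, hz⟩ := exists_integral_le hPsi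
  obtain ⟨X', hX', Y', hY', h⟩ := vertex X Y (u z) (v z) C (hu z) (hv z)
  exact ⟨X', hX', Y', hY', hge.trans (hz.trans h)⟩

theorem steps {V : Type*} (s : V → V → Prop) {g : ℝ} (hg : 1 ≤ g) (p q : V → E) (m : ℕ) :
    ∀ (K : ℝ) (_ : 0 ≤ K) (X Y : Finset V)
    (_ : ∀ x ∈ X, ‖p x‖ ^ 2 ≤ g) (_ : ∀ y ∈ Y, ‖q y‖ ^ 2 ≤ g)
    (_ : ∀ x ∈ X, ∀ y ∈ Y, s x y → inner ℝ (p x) (q y) = 1)
    (_ : ∀ x ∈ X, ∀ y ∈ Y, ¬ s x y → inner ℝ (p x) (q y) = -1),
    ∃ X' ⊆ X, ∃ Y' ⊆ Y,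
      ((1 + Real.exp (-1) / g) / 4) ^ m *
        Phi s (K * ((1 - Real.exp (-1) / g) / (1 + Real.exp (-1) / g)) ^ m) X Y ≤
          Phi s K X' Y' := by
  have hg0 : 0 < g := by linarith
  set c : ℝ := Real.exp (-1) / g with hc
  have hc0 : 0 < c := by positivity
  have hc1 : c ≤ 1 := by
    rw [hc, div_le_one hg0]
    exact (Real.exp_le_one_iff.mpr (by norm_num)).trans hg
  have hr : 0 ≤ (1 - c) / (1 + c) := div_nonneg (by linarith) (by linarith)
  induction m with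
  | zero =>
    intro K hK X Y _ _ _ _
    exact ⟨X, Finset.Subset.refl _, Y, Finset.Subset.refl _, by simp⟩
  | succ m ih =>
    intro K hK X Y hp hq hs hs'
    obtain ⟨X₁, hX₁, Y₁, hY₁, h1⟩ := step s hg (K := K * ((1 - c) / (1 + c)) ^ m)
      (mul_nonneg hK (pow_nonneg hr m)) p q X Y hp hq hs hs'
    obtain ⟨X', hX', Y', hY', h2⟩ := ih K hK X₁ Y₁ (fun x hx => hp x (hX₁ hx))
      (fun y hy => hq y (hY₁ hy)) (fun x hx y hy => hs x (hX₁ hx) y (hY₁ hy))
      (fun x hx y hy => hs' x (hX₁ hx) y (hY₁ hy))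
    refine ⟨X', hX'.trans hX₁, Y', hY'.trans hY₁, le_trans ?_ h2⟩
    rw [← hc] at h1
    have h3 : K * ((1 - c) / (1 + c)) ^ (m + 1) =
        K * ((1 - c) / (1 + c)) ^ m * ((1 - c) / (1 + c)) := by ring
    have h4 : ((1 + c) / 4) ^ (m + 1) = ((1 + c) / 4) ^ m * ((1 + c) / 4) := pow_succ _ _
    rw [h3, h4, mul_assoc]
    exact mul_le_mul_of_nonneg_left h1 (by positivity)

end Pool.Agent.Lib.MP_b9b22b_co.Few
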