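import Pool.Agent.Lib.MP_b9b22b_co.Few.Grow
import Pool.Agent.Lib.MP_b9b22b_co.Defs

/-!
Short vectors from the spectral decomposition.
-/

set_option autoImplicit false

open Finset Matrix

namespace Pool.Agent.Lib.MP_b9b22b_co.Few

variable {V : Type*} [Fintype V] [DecidableEq V]

section spec

variable {A : Matrix V V ℝ} (hA : A.IsHermitian)

theorem entry (x y : V) :
    A x y = ∑ j, hA.eigenvalues j * (hA.eigenvectorBasis j x * hA.eigenvectorBasis j y) := by
  have h := congrFun (congrFun hA.spectral_theorem x) y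
  rw [Unitary.conjStarAlgAut_apply, Matrix.mul_apply] at h
  rw [h]
  refine Finset.sum_congr rfl fun j _ => ?_
  rw [Matrix.mul_diagonal, Matrix.star_apply, hA.eigenvectorUnitary_apply,
    hA.eigenvectorUnitary_apply]
  simp only [Function.comp, RCLike.ofReal_real_eq_id, id, star_trivial]
  ring

theorem norm_one (j : V) : ∑ x, hA.eigenvectorBasis j x ^ 2 = 1 := by
  have h := hA.eigenvectorBasis.orthonormal.1 j
  have h2 : ‖hA.eigenvectorBasis j‖ ^ 2 = 1 := by rw [h]; norm_num
  rw [EuclideanSpace.real_norm_sq_eq] at h2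
  exact h2

theorem sum_sq : ∑ x, ∑ y, A x y ^ 2 = ∑ j, hA.eigenvalues j ^ 2 := by
  have h1 : ∀ j x, ∑ y, A x y * hA.eigenvectorBasis j y =
      hA.eigenvalues j * hA.eigenvectorBasis j x := by
    intro j x
    have h := congrFun (hA.mulVec_eigenvectorBasis j) x
    simpa [Matrix.mulVec, dotProduct] using h
  calc ∑ x, ∑ y, A x y ^ 2
      = ∑ x, ∑ y, ∑ j, A x y *
          (hA.eigenvalues j * (hA.eigenvectorBasis j x * hA.eigenvectorBasis j y)) := by
        refine Finset.sum_congr rfl fun x _ => Finset.sum_congr rfl fun y _ => ?_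
        rw [← Finset.mul_sum, ← entry hA x y, sq]
    _ = ∑ j, ∑ x, ∑ y, A x y *
          (hA.eigenvalues j * (hA.eigenvectorBasis j x * hA.eigenvectorBasis j y)) := by
        rw [Finset.sum_congr rfl fun x _ => Finset.sum_comm, Finset.sum_comm]
    _ = ∑ j, hA.eigenvalues j ^ 2 := by
        refine Finset.sum_congr rfl fun j _ => ?_
        have h2 : ∀ x, ∑ y, A x y *
            (hA.eigenvalues j * (hA.eigenvectorBasis j x * hA.eigenvectorBasis j y)) =
            hA.eigenvalues j ^ 2 * hA.eigenvectorBasis j x ^ 2 := by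
          intro x
          calc ∑ y, A x y *
            (hA.eigenvalues j * (hA.eigenvectorBasis j x * hA.eigenvectorBasis j y)) =
              hA.eigenvalues j * hA.eigenvectorBasis j x *
                ∑ y, A x y * hA.eigenvectorBasis j y := by
                rw [Finset.mul_sum]
                exact Finset.sum_congr rfl fun y _ => by ring
            _ = _ := by rw [h1]; ring
        rw [Finset.sum_congr rfl fun x _ => h2 x, ← Finset.mul_sum, norm_one hA, mul_one]

/-- the diagonal of `|A|` -/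
noncomputable def absDiag (x : V) : ℝ :=
  ∑ j, |hA.eigenvalues j| * hA.eigenvectorBasis j x ^ 2

theorem absDiag_nonneg (x : V) : 0 ≤ absDiag hA x :=
  Finset.sum_nonneg fun _ _ => mul_nonneg (abs_nonneg _) (sq_nonneg _)

theorem sum_absDiag : ∑ x, absDiag hA x = ∑ j, |hA.eigenvalues j| := by
  unfold absDiag
  rw [Finset.sum_comm]
  refine Finset.sum_congr rfl fun j _ => ?_
  rw [← Finset.mul_sum, norm_one hA, mul_one]

theorem sum_abs_le {k : ℕ} (htr : A.trace = 0) (hent : ∀ x y, |A x y| ≤ 1)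
    (hk : (Finset.univ.filter fun j => hA.eigenvalues j ≤ 0).card ≤ k) :
    ∑ j, |hA.eigenvalues j| ≤ 2 * Real.sqrt k * Fintype.card V := by
  set N := Finset.univ.filter fun j => hA.eigenvalues j ≤ 0 with hN
  have h0 : ∑ j, hA.eigenvalues j = 0 := by
    have := hA.trace_eq_sum_eigenvalues
    rw [htr] at this
    simpa using this.symm
  have h1 : ∑ j, |hA.eigenvalues j| = 2 * ∑ j ∈ N, |hA.eigenvalues j| := by
    have h2 : ∑ j, |hA.eigenvalues j| =
        ∑ j ∈ N, |hA.eigenvalues j| + ∑ j ∈ Nᶜ, |hA.eigenvalues j| :=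
      (Finset.sum_add_sum_compl N _).symm
    have h3 : ∑ j, hA.eigenvalues j =
        ∑ j ∈ N, hA.eigenvalues j + ∑ j ∈ Nᶜ, hA.eigenvalues j :=
      (Finset.sum_add_sum_compl N _).symm
    have h4 : ∑ j ∈ N, |hA.eigenvalues j| = -∑ j ∈ N, hA.eigenvalues j := by
      rw [← Finset.sum_neg_distrib]
      refine Finset.sum_congr rfl fun j hj => ?_
      rw [hN, Finset.mem_filter] at hj
      exact abs_of_nonpos hj.2
    have h5 : ∑ j ∈ Nᶜ, |hA.eigenvalues j| = ∑ j ∈ Nᶜ, hA.eigenvalues j := by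
      refine Finset.sum_congr rfl fun j hj => ?_
      rw [hN, Finset.mem_compl, Finset.mem_filter, not_and] at hj
      exact abs_of_pos (not_le.mp (hj (Finset.mem_univ _)))
    rw [h0] at h3
    rw [h2, h4, h5]
    linarith
  have h2 : (∑ j ∈ N, |hA.eigenvalues j|) ^ 2 ≤ k * (Fintype.card V : ℝ) ^ 2 := by
    have h3 := sq_sum_le_card_mul_sum_sq (s := N) (f := fun j => |hA.eigenvalues j|)
    have h4 : ∑ j ∈ N, |hA.eigenvalues j| ^ 2 ≤ (Fintype.card V : ℝ) ^ 2 := by
      calc ∑ j ∈ N, |hA.eigenvalues j| ^ 2 = ∑ j ∈ N, hA.eigenvalues j ^ 2 :=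
            Finset.sum_congr rfl fun j _ => sq_abs _
        _ ≤ ∑ j, hA.eigenvalues j ^ 2 :=
            Finset.sum_le_sum_of_subset_of_nonneg (Finset.subset_univ _)
              fun _ _ _ => sq_nonneg _
        _ = ∑ x, ∑ y, A x y ^ 2 := (sum_sq hA).symm
        _ ≤ ∑ _x : V, ∑ _y : V, (1 : ℝ) := by
            refine Finset.sum_le_sum fun x _ => Finset.sum_le_sum fun y _ => ?_
            rw [← sq_abs]
            exact pow_le_one₀ (abs_nonneg _) (hent x y)
        _ = (Fintype.card V : ℝ) ^ 2 := by simp [sq]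
    have h5 : (N.card : ℝ) ≤ k := by exact_mod_cast hk
    calc (∑ j ∈ N, |hA.eigenvalues j|) ^ 2 ≤ N.card * ∑ j ∈ N, |hA.eigenvalues j| ^ 2 := h3
      _ ≤ k * (Fintype.card V : ℝ) ^ 2 :=
          mul_le_mul h5 h4 (Finset.sum_nonneg fun _ _ => sq_nonneg _) (by positivity)
  have h3 : ∑ j ∈ N, |hA.eigenvalues j| ≤ Real.sqrt k * Fintype.card V := by
    have h4 : Real.sqrt k * Fintype.card V = Real.sqrt (k * (Fintype.card V : ℝ) ^ 2) := by
      rw [Real.sqrt_mul (by positivity), Real.sqrt_sq (by positivity)]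
    rw [h4]
    exact Real.le_sqrt_of_sq_le h2
  rw [h1]
  linarith

/-- the vectors `p x` -/
noncomputable def pvec (x : V) : EuclideanSpace ℝ (Option V) :=
  WithLp.toLp 2 fun o => o.elim 1 fun j =>
    Real.sqrt (2 * |hA.eigenvalues j|) * hA.eigenvectorBasis j x

/-- the vectors `q y` -/
noncomputable def qvec (y : V) : EuclideanSpace ℝ (Option V) :=
  WithLp.toLp 2 fun o => o.elim 1 fun j =>
    -(SignType.sign (hA.eigenvalues j) : ℝ) *
      (Real.sqrt (2 * |hA.eigenvalues j|) * hA.eigenvectorBasis j y)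

theorem norm_pvec (x : V) : ‖pvec hA x‖ ^ 2 = 1 + 2 * absDiag hA x := by
  rw [EuclideanSpace.real_norm_sq_eq, Fintype.sum_option]
  simp only [pvec, Option.elim]
  rw [one_pow, absDiag, Finset.mul_sum]
  congr 1
  refine Finset.sum_congr rfl fun j _ => ?_
  rw [mul_pow, Real.sq_sqrt (by positivity)]
  ring

theorem norm_qvec (x : V) : ‖qvec hA x‖ ^ 2 ≤ 1 + 2 * absDiag hA x := by
  rw [EuclideanSpace.real_norm_sq_eq, Fintype.sum_option]
  simp only [qvec, Option.elim]
  rw [one_pow, absDiag, Finset.mul_sum]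
  refine add_le_add le_rfl (Finset.sum_le_sum fun j _ => ?_)
  rw [mul_pow, mul_pow, Real.sq_sqrt (by positivity)]
  have h1 : (-(SignType.sign (hA.eigenvalues j) : ℝ)) ^ 2 ≤ 1 := by
    rcases lt_trichotomy (hA.eigenvalues j) 0 with h | h | h
    · simp [sign_neg h]
    · simp [h]
    · simp [sign_pos h]
  have h2 : 0 ≤ 2 * |hA.eigenvalues j| * hA.eigenvectorBasis j x ^ 2 := by positivity
  nlinarith

theorem inner_pq (x y : V) : inner ℝ (pvec hA x) (qvec hA y) = 1 - 2 * A x y := by
  rw [PiLp.inner_apply, Fintype.sum_option]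
  simp only [pvec, qvec, Option.elim, RCLike.inner_apply, conj_trivial]
  rw [one_mul, entry hA x y, sub_eq_add_neg, Finset.mul_sum, ← Finset.sum_neg_distrib]
  congr 1
  refine Finset.sum_congr rfl fun j _ => ?_
  have h1 : Real.sqrt (2 * |hA.eigenvalues j|) * Real.sqrt (2 * |hA.eigenvalues j|) =
      2 * |hA.eigenvalues j| := Real.mul_self_sqrt (by positivity)
  have h2 : (SignType.sign (hA.eigenvalues j) : ℝ) * |hA.eigenvalues j| = hA.eigenvalues j :=
    sign_mul_abs _
  calc -(SignType.sign (hA.eigenvalues j) : ℝ) *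
        (Real.sqrt (2 * |hA.eigenvalues j|) * hA.eigenvectorBasis j y) *
        (Real.sqrt (2 * |hA.eigenvalues j|) * hA.eigenvectorBasis j x)
      = -((SignType.sign (hA.eigenvalues j) : ℝ) *
        (Real.sqrt (2 * |hA.eigenvalues j|) * Real.sqrt (2 * |hA.eigenvalues j|)) *
        (hA.eigenvectorBasis j x * hA.eigenvectorBasis j y)) := by ring
    _ = -(2 * ((SignType.sign (hA.eigenvalues j) : ℝ) * |hA.eigenvalues j|) *
        (hA.eigenvectorBasis j x * hA.eigenvectorBasis j y)) := by rw [h1]; ring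
    _ = -(2 * (hA.eigenvalues j * (hA.eigenvectorBasis j x * hA.eigenvectorBasis j y))) := by
        rw [h2]; ring

end spec

open Classical in
/-- Half of the vertices of a graph with at most `k` nonpositive eigenvalues carry nearly
homogeneous pairs everywhere. -/
theorem exists_good (G : SimpleGraph V) {k : ℕ}
    (hk : (Finset.univ.filter fun j => (adj_isHermitian G).eigenvalues j ≤ 0).card ≤ k) :
    ∃ V₁ : Finset V, (Fintype.card V : ℝ) ≤ 2 * V₁.card ∧
      ∀ (m : ℕ) (K : ℝ), 0 < K →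
        (2 + 8 * Real.sqrt k) * Real.exp 1 * Real.log (2 * K) ≤ m → RectProp G V₁ m K := by
  set hA := adj_isHermitian G with hAdef
  set g : ℝ := 2 + 8 * Real.sqrt k with hg
  have hsk := Real.sqrt_nonneg (k : ℝ)
  have hg1 : 1 ≤ g := by rw [hg]; linarith
  set V₁ := Finset.univ.filter (fun x => 1 + 2 * absDiag hA x ≤ g) with hV₁
  have htr : (G.adjMatrix ℝ).trace = 0 := by simp [Matrix.trace]
  have hent : ∀ x y, |G.adjMatrix ℝ x y| ≤ 1 := by
    intro x y
    rw [SimpleGraph.adjMatrix_apply]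
    split_ifs <;> norm_num
  have h1 := sum_abs_le hA htr hent hk
  refine ⟨V₁, ?_, ?_⟩
  · have h2 : ((V₁ᶜ).card : ℝ) * g ≤ Fintype.card V * (g / 2) := by
      calc ((V₁ᶜ).card : ℝ) * g = ∑ _x ∈ V₁ᶜ, g := by rw [Finset.sum_const, nsmul_eq_mul]
        _ ≤ ∑ x ∈ V₁ᶜ, (1 + 2 * absDiag hA x) := by
            refine Finset.sum_le_sum fun x hx => ?_
            rw [hV₁, Finset.mem_compl, Finset.mem_filter, not_and] at hx
            exact (not_le.mp (hx (Finset.mem_univ _))).le
        _ ≤ ∑ x, (1 + 2 * absDiag hA x) :=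
            Finset.sum_le_sum_of_subset_of_nonneg (Finset.subset_univ _)
              fun x _ _ => by linarith [absDiag_nonneg hA x]
        _ = Fintype.card V + 2 * ∑ j, |hA.eigenvalues j| := by
            rw [Finset.sum_add_distrib, ← Finset.mul_sum, sum_absDiag]
            simp
        _ ≤ Fintype.card V * (g / 2) := by
            rw [hg]
            nlinarith
    have h3 : (V₁ᶜ.card : ℝ) ≤ Fintype.card V / 2 := by
      have h4 : (V₁ᶜ.card : ℝ) * g ≤ (Fintype.card V / 2 : ℝ) * g := by linarith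
      exact le_of_mul_le_mul_right h4 (by linarith)
    have h5 : (V₁.card : ℝ) + V₁ᶜ.card = Fintype.card V := by
      exact_mod_cast Finset.card_add_card_compl V₁
    linarith
  · intro m K hK hm X₀ hX₀ Y₀ hY₀
    have hmem : ∀ x ∈ V₁, 1 + 2 * absDiag hA x ≤ g := fun x hx =>
      (Finset.mem_filter.mp hx).2
    have hpair := pair (fun x y => ¬ G.Adj x y) hg1 (pvec hA) (qvec hA) (m := m) hK (by
        rw [hg]; exact hm) X₀ Y₀
      (fun x hx => (norm_pvec hA x).le.trans (hmem x (hX₀ hx)))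
      (fun x hx => (norm_qvec hA x).trans (hmem x (hY₀ hx)))
      (fun x _ y _ h => by
        rw [inner_pq, SimpleGraph.adjMatrix_apply, if_neg h]; norm_num)
      (fun x _ y _ h => by
        rw [inner_pq, SimpleGraph.adjMatrix_apply, if_pos (not_not.mp h)]; norm_num)
    obtain ⟨X, hX, Y, hY, h2, h3⟩ := hpair
    refine ⟨X, hX, Y, hY, h2, ?_⟩
    rcases h3 with h3 | h3
    · right
      simpa only [not_not] using h3
    · left
      exact h3

end Pool.Agent.Lib.MP_b9b22b_co.Few
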